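import Pool.Agent.W78.EG.Defs

/-!
Project EG (helper78): the estimate for fixed `X` (port of W490.EX.Perx).
-/

set_option autoImplicit false

namespace Pool.Agent.W99.EG

open Finset Filter
open Pool.Agent.W78.GA (Qd nm prim dt ip lat cellM mE ps DPG ball pball edge dedge ang Ele)
open Pool.Agent.W78.EC (Tr av)
open Pool.Agent.W78.EG

variable {t c : ℤ} {f : ℕ} {χ : DirichletCharacter ℂ f}

theorem PQ_mem {Q p : ℕ} (h : p ∈ PQ χ Q) : Q < p ∧ p ≤ 2 * Q ∧ p.Prime ∧ χ (p : ZMod f) = 1 := by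
  unfold PQ at h
  rw [mem_filter, mem_Ioc] at h
  exact ⟨h.1.1, h.1.2, h.2.1, h.2.2⟩

theorem th_sum (Q : ℕ) (d : ℤ) :
    ∑ p ∈ PQ χ Q, Real.log p * (if d = p then (1 : ℝ) else 0) = th χ Q d := by
  unfold th
  split_ifs with h
  · rw [sum_eq_single d.toNat]
    · have h1 : (d.toNat : ℤ) = d := Int.toNat_of_nonneg h.1.le
      rw [if_pos h1.symm, mul_one]
      congr 1
      exact_mod_cast congrArg (fun x : ℤ => (x : ℝ)) h1
    · intro p _ hne
      rw [if_neg, mul_zero]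
      intro hd
      exact hne (by omega)
    · intro hn
      exact absurd h.2 hn
  · refine sum_eq_zero fun p hp => ?_
    rw [if_neg, mul_zero]
    intro hd
    apply h
    have hpp := (PQ_mem hp).2.2.1.pos
    refine ⟨by omega, ?_⟩
    have : d.toNat = p := by omega
    rw [this]
    exact hp

theorem good_edge {K : ℕ} {κ : ℝ} {Q : ℕ} {X : ℝ} {e : Qd t c × Qd t c} (he : e ∈ good t c K κ Q X) :
    e ∈ edge t c (X / (K * Q)) := by
  unfold good at he
  rw [mem_filter] at he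
  exact he.1

/-- a product of complex numbers in terms of real and imaginary parts -/
theorem mul_parts (a b : ℂ) : a * b = ((a.re * b.re : ℝ) : ℂ) - ((a.im * b.im : ℝ) : ℂ) +
    Complex.I * (((a.re * b.im : ℝ) : ℂ) + ((a.im * b.re : ℝ) : ℂ)) := by
  apply Complex.ext <;> simp

/-- a truncated product of complex numbers in terms of real and imaginary parts -/
theorem ite_parts (P : Prop) [Decidable P] (a b : ℂ) : (if P then a * b else 0) =
    ((if P then a.re * b.re else 0 : ℝ) : ℂ) - ((if P then a.im * b.im else 0 : ℝ) : ℂ) +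
    Complex.I * (((if P then a.re * b.im else 0 : ℝ) : ℂ) +
      ((if P then a.im * b.re else 0 : ℝ) : ℂ)) := by
  split_ifs
  · exact mul_parts a b
  · simp

open scoped Classical in
/-- the bijection for complex functions -/
theorem bijC (h5 : S_BIJ t c χ) (K : ℕ) (κ : ℝ) (Q : ℕ) (X : ℝ) (p : ℕ) (π : Qd t c) (r : ℤ)
    (u v : Qd t c → ℂ) (hK : 1 ≤ K) (hκ : 0 < κ) (hQ : 1 ≤ Q) (hX : f * (K * Q : ℝ) ≤ X)
    (hp : p ∈ PQ χ Q) (h1 : nm π = p) (h2 : lat p r π) (h3 : (p : ℤ) ∣ r ^ 2 - t * r + c) :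
    ∑ e ∈ good t c K κ Q X, ∑ v' ∈ cone X e.1 e.2, ∑ w' ∈ cone X e.1 e.2,
      (if dt v' w' = p ∧ lat p r v' then u v' * v w' else 0) =
    ∑ e ∈ (dedge t c (X / p)).filter (InG K κ Q X π), u (π * e.1) * v (π * e.2) := by
  have e1 := h5 K κ Q X p π r (fun z => (u z).re) (fun z => (v z).re) hK hκ hQ hX hp h1 h2 h3
  have e2 := h5 K κ Q X p π r (fun z => (u z).im) (fun z => (v z).im) hK hκ hQ hX hp h1 h2 h3
  have e3 := h5 K κ Q X p π r (fun z => (u z).re) (fun z => (v z).im) hK hκ hQ hX hp h1 h2 h3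
  have e4 := h5 K κ Q X p π r (fun z => (u z).im) (fun z => (v z).re) hK hκ hQ hX hp h1 h2 h3
  simp only [ite_parts, sum_add_distrib, sum_sub_distrib, ← mul_sum, ← Complex.ofReal_sum]
  rw [e1, e2, e3, e4]
  have e5 : ∀ e : Qd t c × Qd t c, u (π * e.1) * v (π * e.2) =
      (((u (π * e.1)).re * (v (π * e.2)).re : ℝ) : ℂ) -
      (((u (π * e.1)).im * (v (π * e.2)).im : ℝ) : ℂ) +
      Complex.I * ((((u (π * e.1)).re * (v (π * e.2)).im : ℝ) : ℂ) +
        (((u (π * e.1)).im * (v (π * e.2)).re : ℝ) : ℂ)) := fun e => mul_parts _ _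
  rw [sum_congr rfl fun e _ => e5 e]
  rw [sum_add_distrib, sum_sub_distrib, ← mul_sum, sum_add_distrib]
  push_cast
  rfl

open scoped Classical in
/-- PERX: the estimate for fixed `X` -/
theorem perx (_ : Fd t c f χ) (h5 : S_BIJ t c χ) : S_PERX t c χ := by
  intro K κ Q X A d₁ d₂ lab ϖ r ζ₁ ζ₂ hK hκ hQ hX hϖ hζ
  have hQ0 : (0 : ℝ) < Q := by exact_mod_cast hQ
  have hQC : (Q : ℂ) ≠ 0 := by
    have : Q ≠ 0 := by omega
    exact_mod_cast this
  set FF : ℕ → ℂ := fun p => ∑ e ∈ (dedge t c (X / p)).filter (InG K κ Q X (ϖ p)),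
    d₁ (lab (ϖ p * e.1)) * d₂ (lab (ϖ p * e.2)) with hF
  set Z : ℕ → Qd t c × Qd t c → ℂ := fun p e => ((ζ₁ p (TT lab X e) (res p e) : ℝ) : ℂ) +
    Complex.I * ((ζ₂ p (TT lab X e) (res p e) : ℝ) : ℂ) with hZ
  set V : ℕ → Qd t c × Qd t c → ℂ := fun p e => ((av p (ζ₁ p) (TT lab X e) : ℝ) : ℂ) +
    Complex.I * ((av p (ζ₂ p) (TT lab X e) : ℝ) : ℂ) with hV
  -- step a
  have hA : ∀ p ∈ PQ χ Q, ((p : ℂ) + 1) * FF p = 2 * Q * ∑ e ∈ good t c K κ Q X, Z p e := by
    intro p hp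
    obtain ⟨a1, a2, a3⟩ := hϖ p hp
    have h1 := bijC h5 K κ Q X p (ϖ p) (r p) (fun z => d₁ (lab z)) (fun z => d₂ (lab z)) hK hκ hQ
      hX hp a1 a2 a3
    rw [hF]
    simp only
    rw [← h1, sum_congr rfl fun e he => (hζ e he p hp).1, ← mul_sum, ← mul_assoc]
    congr 1
    push_cast
    field_simp
  -- step b
  have hBB : 2 * (Q : ℂ) * ∑ e ∈ good t c K κ Q X, ∑ p ∈ PQ χ Q, (Real.log p : ℂ) * V p e =
      ∑ e ∈ good t c K κ Q X, ∑ v ∈ cone X e.1 e.2, ∑ w ∈ cone X e.1 e.2,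
        d₁ (lab v) * d₂ (lab w) * (th χ Q (dt v w) : ℂ) := by
    rw [mul_sum]
    refine sum_congr rfl fun e he => ?_
    have h1 : ∀ p ∈ PQ χ Q, (Real.log p : ℂ) * V p e =
        1 / (2 * Q) * ∑ z ∈ cone X e.1 e.2, ∑ w ∈ cone X e.1 e.2,
          (d₁ (lab z) * d₂ (lab w)) *
            (((Real.log p * if dt z w = p then (1 : ℝ) else 0 : ℝ)) : ℂ) := by
      intro p hp
      have h2 : V p e = _ := (hζ e he p hp).2
      rw [h2, mul_left_comm]
      push_cast
      congr 1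
      rw [mul_sum]
      refine sum_congr rfl fun z _ => ?_
      rw [mul_sum]
      refine sum_congr rfl fun w _ => ?_
      split_ifs <;> push_cast <;> ring
    rw [sum_congr rfl h1, ← mul_sum, ← mul_assoc, mul_one_div_cancel (by
      exact mul_ne_zero two_ne_zero hQC), one_mul, sum_comm]
    refine sum_congr rfl fun z _ => ?_
    rw [sum_comm]
    refine sum_congr rfl fun w _ => ?_
    rw [← mul_sum, ← Complex.ofReal_sum, th_sum]
  -- decomposition
  set D : ℕ → Qd t c × Qd t c → ℂ := fun p e => Z p e - V p e with hD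
  have hdec : ∑ p ∈ PQ χ Q, ((Real.log p * ((p : ℝ) + 1) : ℝ) : ℂ) * FF p =
      2 * Q * ∑ e ∈ good t c K κ Q X, ∑ p ∈ PQ χ Q, (Real.log p : ℂ) * D p e +
      2 * Q * ∑ e ∈ good t c K κ Q X, ∑ p ∈ PQ χ Q, (Real.log p : ℂ) * V p e := by
    rw [← mul_add, ← sum_add_distrib]
    have h1 : ∀ e ∈ good t c K κ Q X, (∑ p ∈ PQ χ Q, (Real.log p : ℂ) * D p e +
        ∑ p ∈ PQ χ Q, (Real.log p : ℂ) * V p e) = ∑ p ∈ PQ χ Q, (Real.log p : ℂ) * Z p e := by
      intro e _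
      rw [← sum_add_distrib]
      refine sum_congr rfl fun p _ => ?_
      rw [hD]
      ring
    rw [sum_congr rfl h1, sum_comm, mul_sum]
    refine sum_congr rfl fun p hp => ?_
    rw [← mul_sum]
    have h2 := hA p hp
    push_cast
    rw [mul_assoc, h2]
    ring
  rw [hdec, hBB]
  refine (norm_add_le _ _).trans (add_le_add ?_ le_rfl)
  rw [norm_mul]
  have h2Q : ‖(2 * (Q : ℂ))‖ = 2 * Q := by
    rw [norm_mul, Complex.norm_natCast]
    simp
  rw [h2Q]
  refine mul_le_mul_of_nonneg_left ?_ (by positivity)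
  refine (norm_sum_le _ _).trans ?_
  refine le_trans (sum_le_sum fun e _ => ?_) (sum_le_sum_of_subset_of_nonneg
    (fun e he => good_edge he) (fun _ _ _ => add_nonneg (abs_nonneg _) (abs_nonneg _)))
  have h3 : ∑ p ∈ PQ χ Q, (Real.log p : ℂ) * D p e =
      ((∑ p ∈ PQ χ Q, Real.log p * (ζ₁ p (TT lab X e) (res p e) - av p (ζ₁ p) (TT lab X e)) : ℝ) : ℂ) +
      Complex.I * ((∑ p ∈ PQ χ Q, Real.log p *
        (ζ₂ p (TT lab X e) (res p e) - av p (ζ₂ p) (TT lab X e)) : ℝ) : ℂ) := by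
    rw [Complex.ofReal_sum, Complex.ofReal_sum, mul_sum, ← sum_add_distrib]
    refine sum_congr rfl fun p _ => ?_
    rw [hD, hZ, hV]
    push_cast
    ring
  rw [h3]
  refine (norm_add_le _ _).trans ?_
  rw [norm_mul, Complex.norm_I, one_mul, Complex.norm_real, Complex.norm_real, Real.norm_eq_abs,
    Real.norm_eq_abs]

end Pool.Agent.W99.EG
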